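import Pool.Agent.Lib.MP_fadef1_lc.Pat

/-!
# Data of a level and evaluation of circuits
-/

namespace Pool.Agent.MP_fadef1_lc

/-- Data of a level: number `w` of lanes per wire, `mort` (the mortal transitions are alive),
`al` (the alive gate lets the lanes pass), `g d (s, z)`: output of the pair gate `d` for the lane
`z` entering in slot `s` (`0` or `1`). -/
structure Data where
  w : ℕ
  mort : Bool
  al : Bool
  g : ℕ → ℕ × ℕ → Option (ℕ × ℕ)

/-- The outputs of the pair gates are lanes again. -/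
def Data.Ok (D : Data) : Prop :=
  0 < D.w ∧ ∀ d s z s' z', d < 4 → s < 2 → z < D.w → D.g d (s, z) = some (s', z') →
    s' < 2 ∧ z' < D.w

/-- Evaluation of a layer at the lane `z` in address `a`. -/
def evalL (D : Data) (l : Layer) (p : ℕ × ℕ) : Option (ℕ × ℕ) :=
  if l.t = 0 then
    (if p.1 = l.b then (D.g l.a (0, p.2)).map fun s => (l.b + s.1, s.2)
    else if p.1 = l.b + 1 then (D.g l.a (1, p.2)).map fun s => (l.b + s.1, s.2)
    else some p)
  else if l.t = 1 then
    (if l.a ≤ p.1 ∧ p.1 < l.b then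
      (if p.1 + l.c < l.b then some (p.1 + l.c, p.2) else none) else some p)
  else
    (if l.a ≤ p.1 ∧ p.1 < l.b then
      (if l.a + l.c ≤ p.1 then some (p.1 - l.c, p.2) else none) else some p)

/-- Evaluation of a circuit. -/
def evalC (D : Data) : List Layer → ℕ × ℕ → Option (ℕ × ℕ)
  | [], p => some p
  | l :: L, p => (evalL D l p).bind (evalC D L)

/-- Lane `l` (`l < N * w`) of slot `s` as address and lane. -/
def pack (N w : ℕ) (s : ℕ × ℕ) : ℕ × ℕ := (s.1 * N + s.2 / w, s.2 % w)

/-- `D'` is the data of the next level. -/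
structure Next (P : Par) (D D' : Data) : Prop where
  hw : D'.w = P.N * D.w
  hm : D'.mort = (D.mort && D.al)
  hok : D'.Ok
  hE1 : D'.mort = true → D'.al = true → ∀ a z, a < P.N → z < D.w →
    evalC D P.cE (a, z) = some (a, z)
  hE0 : D'.mort = true → D'.al = false → ∀ a z q, a < P.N → z < D.w →
    evalC D P.cE (a, z) = some q → P.N ≤ q.1
  hG1 : D'.mort = true → ∀ d s l s' l', d < 4 → s < 2 → l < P.N * D.w →
    D'.g d (s, l) = some (s', l') →
    evalC D (P.circ d) (pack P.N D.w (s, l)) = some (pack P.N D.w (s', l'))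
  hG0 : D'.mort = true → ∀ d s l q, d < 4 → s < 2 → l < P.N * D.w →
    D'.g d (s, l) = none → evalC D (P.circ d) (pack P.N D.w (s, l)) = some q → 2 * P.N ≤ q.1

/-- shift up by `x` on two adjacent packets of width `w` -/
def shG (w x : ℕ) (p : ℕ × ℕ) : Option (ℕ × ℕ) :=
  if p.1 = 0 then (if p.2 + x < w then some (0, p.2 + x) else some (1, p.2 + x - w))
  else if p.2 < x then none else some (1, p.2)

/-- the inverse of `shG` -/
def shH (w x : ℕ) (p : ℕ × ℕ) : Option (ℕ × ℕ) :=
  if p.1 = 0 then (if p.2 < x then none else some (0, p.2 - x))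
  else if p.2 < x then some (0, w - x + p.2) else some (1, p.2)

/-- the data given by two numbers `X, Y ≤ w` -/
def dataOf (w X Y : ℕ) (mort al : Bool) : Data :=
  ⟨w, mort, al, fun d => if d = 0 then shG w X else if d = 1 then shH w X
    else if d = 2 then shG w Y else shH w Y⟩

/-- the data of level 0 -/
def data0 : Data := dataOf 1 1 1 true true

/-- A chain of data for the pattern `P`. -/
def Chain (P : Par) (D : ℕ → Data) : Prop := D 0 = data0 ∧ ∀ r, Next P (D r) (D (r + 1))

/-- a layer is legal for `M` addresses -/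
def layOk (M : ℕ) (l : Layer) : Prop :=
  (l.t = 0 ∧ l.a < 4 ∧ l.b + 1 < M) ∨ ((l.t = 1 ∨ l.t = 2) ∧ l.b ≤ M)

/-- The parameters are large enough. -/
structure Par.Ok (P : Par) : Prop where
  hN : 1 ≤ P.N
  hM : 2 * P.N ≤ P.M
  hL : ∀ c ∈ [P.cE, P.cX, P.cY], ∀ l ∈ c, layOk P.M l
  hHs : ∀ c ∈ [P.cE, P.cX, P.cY], P.N + 20 + (c.length + 2) * (3 * P.M + 3) ≤ P.Hs
  hQQ : ∀ c ∈ [P.cE, P.cX, P.cY],
    P.H0 + 86 * P.Hs + (c.length + 2) * (20 * P.M + 30) + 100 ≤ P.QQ

end Pool.Agent.MP_fadef1_lc
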