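import Mathlib

/-!
# Rectilinear connectivity of two-dimensional automatic arrays: the problem

An input is a triple `(h0, h1, a)`: the two blocks `h(0)`, `h(1)` of a two-dimensional
morphism on `{0,1}`, given as lists of rows, and the start letter `a`.
-/

namespace Pool.Agent.MP_fadef1_lc

/-- An input of the decision problem: the block of the letter `0`, the block of the letter `1`
(lists of rows) and the start letter. -/
abbrev Inp : Type := List (List Bool) × List (List Bool) × Bool

/-- The block `h(b)` as a list of rows. -/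
def tab (x : Inp) (b : Bool) : List (List Bool) := if b then x.2.1 else x.1

/-- The entry `(i,j)` of the block `h(b)`. -/
def ent (x : Inp) (b : Bool) (i j : ℕ) : Bool := ((tab x b).getD i []).getD j false

/-- Number `k` of rows of the blocks. -/
def nrows (x : Inp) : ℕ := x.1.length

/-- Number `l` of columns of the blocks. -/
def ncols (x : Inp) : ℕ := (x.1.getD 0 []).length

/-- `x` is a legal input: `k, l ≥ 2`, both blocks are `k × l` arrays, and the morphism is
prolongable on the start letter. -/
def Valid (x : Inp) : Prop :=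
  2 ≤ nrows x ∧ 2 ≤ ncols x ∧
  (∀ b : Bool, (tab x b).length = nrows x ∧ ∀ r ∈ tab x b, r.length = ncols x) ∧
  ent x x.2.2 0 0 = x.2.2

/-- The entry `(i,j)` of `h^r(a)`. -/
def iter (x : Inp) : ℕ → ℕ → ℕ → Bool
  | 0, _, _ => x.2.2
  | r + 1, i, j => ent x (iter x r (i / nrows x) (j / ncols x)) (i % nrows x) (j % ncols x)

/-- The fixed point `h^ω(a)`: its entry `(i,j)` is the entry `(i,j)` of `h^r(a)` for every `r`
with `i < k^r`, `j < l^r`; `r = i + j` is such an `r`. -/
def hOmega (x : Inp) (i j : ℕ) : Bool := iter x (i + j) i j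

/-- Two cells are adjacent: they differ by one in exactly one coordinate. -/
def Adj (u v : ℕ × ℕ) : Prop :=
  (u.1 = v.1 ∧ (u.2 = v.2 + 1 ∨ v.2 = u.2 + 1)) ∨ (u.2 = v.2 ∧ (u.1 = v.1 + 1 ∨ v.1 = u.1 + 1))

/-- One step of a path through cells holding `1`. -/
def OneStep (X : ℕ → ℕ → Bool) (u v : ℕ × ℕ) : Prop :=
  Adj u v ∧ X u.1 u.2 = true ∧ X v.1 v.2 = true

/-- The array is rectilinearly connected. -/
def RectConn (X : ℕ → ℕ → Bool) : Prop :=
  ∀ u v : ℕ × ℕ, X u.1 u.2 = true → X v.1 v.2 = true → Relation.ReflTransGen (OneStep X) u v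

end Pool.Agent.MP_fadef1_lc
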