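import Pool.Agent.Lib.MP_fadef1_lc.Pat

/-!
# Affine region systems and their circuits
-/

namespace Pool.Agent.MP_fadef1_lc

/-- A region system. In region `m` the numbers are replaced by
`aX m * X + bXp m * w - bXm m * w` and `aY m * Y + bYp m * w - bYm m * w`. -/
structure Sys where
  N : ℕ
  κ : ℕ
  Kx : ℕ
  Ky : ℕ
  R : ℕ
  aX : ℕ → ℕ
  bXp : ℕ → ℕ
  bXm : ℕ → ℕ
  aY : ℕ → ℕ
  bYp : ℕ → ℕ
  bYm : ℕ → ℕ
  halt : ℕ → Bool

/-- Shift pass with gate `d` on the addresses `[lo,hi)`. -/
def pass (d lo hi : ℕ) : List Layer :=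
  (List.range (hi - 1 - lo)).reverse.map fun k => Layer.gate d (lo + k)

/-- `n` times the circuit `c` -/
def crep (n : ℕ) (c : List Layer) : List Layer := (List.replicate n c).flatten

namespace Sys

variable (S : Sys)

/-- length of the line -/
def M0 : ℕ := S.κ * S.R

/-- displacement of the line starting at address `o` -/
def disp (o : ℕ) : List Layer :=
  crep S.Kx (pass 0 o (o + S.M0)) ++ crep S.Ky (pass 2 o (o + S.M0))

/-- region `m`: shift with gate `d`, `a` passes, then `+bp`, then `-bm` -/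
def caseOne (o d a bp bm m : ℕ) : List Layer :=
  crep a (pass d (o + S.κ * m) (o + S.κ * m + S.κ)) ++
    [Layer.up (o + S.κ * m) (o + S.κ * m + S.κ) bp, Layer.dn (o + S.κ * m) (o + S.κ * m + S.κ) bm]

/-- region-wise operations for the first number -/
def casesX (o : ℕ) : List Layer :=
  (List.range S.R).flatMap fun m => S.caseOne o 0 (S.aX m) (S.bXp m) (S.bXm m) m
/-- region-wise operations for the second number -/
def casesY (o : ℕ) : List Layer :=
  (List.range S.R).flatMap fun m => S.caseOne o 2 (S.aY m) (S.bYp m) (S.bYm m) m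

/-- shift by the new first number -/
def rsX (o : ℕ) : List Layer := S.disp o ++ S.casesX o ++ cinv (S.disp o)
/-- shift by the new second number -/
def rsY (o : ℕ) : List Layer := S.disp o ++ S.casesY o ++ cinv (S.disp o)

/-- number of addresses -/
def M : ℕ := S.N + S.M0

/-- circuit of the gate of the first number -/
def cX : List Layer :=
  [Layer.up S.N S.M S.N] ++ cinv (S.rsX S.N) ++ [Layer.dn S.N S.M S.N] ++ S.rsX 0
/-- circuit of the gate of the second number -/
def cY : List Layer :=
  [Layer.up S.N S.M S.N] ++ cinv (S.rsY S.N) ++ [Layer.dn S.N S.M S.N] ++ S.rsY 0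
/-- circuit of the alive gate -/
def cE : List Layer :=
  S.disp 0 ++ ((List.range S.R).flatMap fun m =>
    if S.halt m then [Layer.up (S.κ * m) (S.κ * m + S.κ) S.κ] else []) ++ cinv (S.disp 0)

/-- maximal length of the circuits -/
def len : ℕ := S.cE.length + S.cX.length + S.cY.length

/-- superbands per strip -/
def Hs : ℕ := S.N + 20 + (S.len + 2) * (3 * S.M + 3)

/-- The parameters of the pattern. -/
def par : Par where
  N := S.N
  M := S.M
  Hs := S.Hs
  QQ := (2 * S.N + 20) + 86 * S.Hs + (S.len + 2) * (20 * S.M + 30) + 100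
  cE := S.cE
  cX := S.cX
  cY := S.cY

/-- At width `w` the numbers `X, Y` are in region `m` and the new numbers are `X', Y'`. -/
structure Step (w X Y m X' Y' : ℕ) : Prop where
  hm : m < S.R
  hX : X ≤ w
  hY : Y ≤ w
  hD : S.κ * m * w ≤ S.Kx * X + S.Ky * Y
  roomX : S.Kx * X + S.Ky * Y + 3 * S.N * w + S.aX m * X + S.bXp m * w + w < S.κ * (m + 1) * w
  roomY : S.Kx * X + S.Ky * Y + 3 * S.N * w + S.aY m * Y + S.bYp m * w + w < S.κ * (m + 1) * w
  eqX : X' + S.bXm m * w = S.aX m * X + S.bXp m * w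
  eqY : Y' + S.bYm m * w = S.aY m * Y + S.bYp m * w
  leX : X' ≤ S.N * w
  leY : Y' ≤ S.N * w

end Sys

end Pool.Agent.MP_fadef1_lc
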