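import Pool.Agent.Lib.MP_fadef1_lc.Sys

/-!
# Simple Turing machines and their region systems
-/

namespace Pool.Agent.MP_fadef1_lc

/-- A one-tape machine: states `< S`, symbols `< g` (`0` is the blank). `tr q h = some (q', a)`:
new state `q'`, action `a`: `0` move left, `1` move right, `a + 2` write `a`. -/
structure TM where
  S : ℕ
  g : ℕ
  tr : ℕ → ℕ → Option (ℕ × ℕ)

/-- legal machine -/
structure TM.Ok (T : TM) : Prop where
  hS : 1 ≤ T.S
  hg : 1 ≤ T.g
  htr : ∀ q h q' a, q < T.S → h < T.g → T.tr q h = some (q', a) → q' < T.S ∧ a < T.g + 2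
  hout : ∀ q h, T.S ≤ q ∨ T.g ≤ h → T.tr q h = none

/-- Configuration: state, scanned symbol, left part (nearest first), right part (nearest first);
beyond the lists the tape is blank. -/
@[ext] structure Cfg where
  q : ℕ
  h : ℕ
  l : List ℕ
  r : List ℕ

/-- one step -/
def TM.step (T : TM) (c : Cfg) : Option Cfg :=
  match T.tr c.q c.h with
  | none => none
  | some (q', 0) => some ⟨q', c.l.headI, c.l.tail, c.h :: c.r⟩
  | some (q', 1) => some ⟨q', c.r.headI, c.h :: c.l, c.r.tail⟩
  | some (q', a + 2) => some ⟨q', a, c.l, c.r⟩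

/-- `n` steps -/
def TM.run (T : TM) (c : Cfg) : ℕ → Option Cfg
  | 0 => some c
  | n + 1 => (T.run c n).bind T.step

/-- start configuration -/
def cfg0 (l : List ℕ) : Cfg := ⟨0, l.headI, [], l.tail⟩

namespace TM

variable (T : TM)

/-- the base of the encoding -/
def B : ℕ := 4 * (T.g + 1) * (T.g + 1) * (T.S + 1)
/-- number of packets -/
def NN (l : List ℕ) : ℕ := T.B ^ (l.tail.length + 3)
/-- `NN / B` -/
def N1 (l : List ℕ) : ℕ := T.B ^ (l.tail.length + 2)
/-- `NN / B ^ 2` -/
def N2 (l : List ℕ) : ℕ := T.B ^ (l.tail.length + 1)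
/-- initial region -/
def mi : ℕ := T.B * (T.g + 1)
/-- the transition used in region `m` -/
def dec (m : ℕ) : Option (ℕ × ℕ) := T.tr (m / T.g / T.g) (m / T.g % T.g)
/-- the digits of the list as a number in base `B` -/
def num (l : List ℕ) : ℕ := l.foldl (fun acc d => acc * T.B + d) 0

/-- first coefficient for the first number -/
def aX (l : List ℕ) (m : ℕ) : ℕ :=
  if m = T.mi then 0 else
    match T.dec m with
    | none => 0
    | some (_, 0) => T.NN l * T.B
    | some (_, 1) => T.N1 l
    | some (_, _ + 2) => T.NN l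
/-- positive constant for the first number -/
def bXp (l : List ℕ) (m : ℕ) : ℕ :=
  if m = T.mi then T.N1 l * l.headI else
    match T.dec m with
    | none => 0
    | some (q', 0) => T.N1 l * (T.g * q')
    | some (q', 1) => T.N1 l * (T.g * q' + m % T.g) + T.N2 l * (m / T.g % T.g)
    | some (q', a + 2) => T.N1 l * (T.g * q' + a)
/-- negative constant for the first number -/
def bXm (l : List ℕ) (m : ℕ) : ℕ :=
  if m = T.mi then 0 else
    match T.dec m with
    | none => 0
    | some (_, 0) => T.NN l * (m / T.g)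
    | some (_, 1) => T.N2 l * (m / T.g)
    | some (_, _ + 2) => T.N1 l * (m / T.g)
/-- first coefficient for the second number -/
def aY (l : List ℕ) (m : ℕ) : ℕ :=
  if m = T.mi then 0 else
    match T.dec m with
    | none => 0
    | some (_, 0) => T.N1 l
    | some (_, 1) => T.NN l * T.B
    | some (_, _ + 2) => T.NN l
/-- positive constant for the second number -/
def bYp (l : List ℕ) (m : ℕ) : ℕ :=
  if m = T.mi then T.num l.tail * T.B ^ 3 else
    match T.dec m with
    | none => 0
    | some (_, 0) => T.N1 l * (m / T.g % T.g)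
    | some (_, _ + 1) => 0
/-- negative constant for the second number -/
def bYm (l : List ℕ) (m : ℕ) : ℕ :=
  if m = T.mi then 0 else
    match T.dec m with
    | none => 0
    | some (_, 0) => 0
    | some (_, 1) => T.NN l * (m % T.g)
    | some (_, _ + 2) => 0
/-- halting regions -/
def hlt (m : ℕ) : Bool := decide (m ≠ T.mi) && (T.dec m).isNone

/-- the region system of the machine with input `l` -/
def sys (l : List ℕ) : Sys where
  N := T.NN l
  κ := 4 * T.NN l * T.B
  Kx := 4 * T.NN l * T.B * T.B * T.g
  Ky := 4 * T.NN l * T.B * T.B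
  R := T.mi + 1
  aX := T.aX l
  bXp := T.bXp l
  bXm := T.bXm l
  aY := T.aY l
  bYp := T.bYp l
  bYm := T.bYm l
  halt := T.hlt

end TM

end Pool.Agent.MP_fadef1_lc
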