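import Pool.Agent.Lib.MP_fadef1_lc.Mg.G024
import Pool.Agent.Lib.MP_fadef1_lc.Mg.G018
import Pool.Agent.Lib.MP_fadef1_lc.Mg.G003
import Pool.Agent.Lib.MP_fadef1_lc.Mg.G026
import Pool.Agent.Lib.MP_fadef1_lc.Mg.G031

/-! Rectilinear connectivity is undecidable. -/

namespace Pool.Agent.MP_fadef1_lc

theorem main_iff {P : Par} (hP : P.Ok) {D : ℕ → Data} (hc : Chain P D) :
    RectConn P.arr ↔ ∃ r, (D r).mort = false := by
  constructor
  · intro h
    by_contra hn
    push Not at hn
    exact disc_of_inf hP (inf_Z hP hc fun r => by simpa using hn r) h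
  · exact fun h => conn_of_fin hP (fin_all hP hc h)

/-- There is no algorithm which halts on all legal inputs and decides whether the fixed point is
rectilinearly connected. -/
theorem undecidable :
    ¬ ∃ f : Inp →. Bool, Partrec f ∧
      ∀ x, Valid x → ∃ b ∈ f x, (b = true ↔ RectConn (hOmega x)) := by
  rintro ⟨f, hf, hx⟩
  obtain ⟨T, hT, inp, hi, hl, hh⟩ := exists_tm
  apply hh
  have hok : ∀ n, (T.sys (inp n)).par.Ok := fun n => sys_par_ok hT _
  have hdom : ∀ n, (f (T.sys (inp n)).par.inp).Dom := fun n => by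
    obtain ⟨b, hb, -⟩ := hx _ (valid_inp (hok n))
    exact Part.dom_iff_mem.2 ⟨b, hb⟩
  let g : ℕ → Bool := fun n => (f (T.sys (inp n)).par.inp).get (hdom n)
  have hg : Computable g := by
    have h1 : Partrec fun n => f (T.sys (inp n)).par.inp :=
      hf.comp (prim_inp.to_comp.comp ((prim_sys_par hT).to_comp.comp hi))
    refine h1.of_eq fun n => ?_
    exact (Part.some_get (hdom n)).symm
  have key : ∀ n, (∃ t, T.run (cfg0 (inp n)) t = none) ↔ g n = true := by
    intro n
    have hP := hok n
    obtain ⟨b, hb, h0⟩ := hx _ (valid_inp hP)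
    have hgb : g n = b := Part.get_eq_of_mem hb (hdom n)
    have h1 : hOmega (T.sys (inp n)).par.inp = (T.sys (inp n)).par.arr := rfl
    rw [hgb, h0, h1]
    constructor
    · intro h
      obtain ⟨D, hc, hr⟩ := chain_halt hT (hl n) h
      exact (main_iff hP hc).2 hr
    · intro h
      by_contra hn
      push Not at hn
      obtain ⟨D, hc, hr⟩ := chain_nonhalt hT (hl n) hn
      obtain ⟨r, hr'⟩ := (main_iff hP hc).1 h
      rw [hr r] at hr'
      cases hr'
  refine ComputablePred.computable_iff.2 ⟨_, hg, ?_⟩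
  funext n
  exact propext (key n)

end Pool.Agent.MP_fadef1_lc
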