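import Pool.Agent.Lib.MP_fadef1_lc.Defs

/-!
# The pattern generator

Channels are numbered by natural numbers `c = q + Q`.  A cell `(i,j)` of a block has
`x = j + K - i - 1`, `c = x / 3` and phase `s = x % 3` (`0` = wall, `1` = T, `2` = L);
superband `A = i / 6`, row phase `r = i % 6`.
-/

namespace Pool.Agent.MP_fadef1_lc

/-- Events: `t = 0` none, `1` run `x → y`, `2` gate number `y` at `x`, `3` alive gate at `x`,
`4` insert `x`, `5` remove `x`. -/
@[ext] structure Ev where
  t : ℕ
  x : ℕ
  y : ℕ
deriving DecidableEq, Inhabited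

namespace Ev
/-- no event -/
def non : Ev := ⟨0, 0, 0⟩
/-- run from channel `c` to channel `c'` -/
def R (c c' : ℕ) : Ev := ⟨1, c, c'⟩
/-- pair gate number `d` on the channels `c, c+2` -/
def G (d c : ℕ) : Ev := ⟨2, c, d⟩
/-- alive gate on channel `c` -/
def A (c : ℕ) : Ev := ⟨3, c, 0⟩
/-- insert a wire at channel `c` -/
def I (c : ℕ) : Ev := ⟨4, c, 0⟩
/-- remove the wire at channel `c` -/
def X (c : ℕ) : Ev := ⟨5, c, 0⟩
end Ev

/-- Layers of circuits on addresses `0, …, M-1`: `t = 0`: pair gate number `a` on the addresses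
`b, b+1`; `t = 1`: move the addresses in `[a,b)` up by `c` inside `[a,b)`; `t = 2`: move down. -/
@[ext] structure Layer where
  t : ℕ
  a : ℕ
  b : ℕ
  c : ℕ
deriving DecidableEq, Inhabited

namespace Layer
/-- pair gate `d` on addresses `k, k+1` -/
def gate (d k : ℕ) : Layer := ⟨0, d, k, 0⟩
/-- shift up by `β` inside `[lo,hi)` -/
def up (lo hi β : ℕ) : Layer := ⟨1, lo, hi, β⟩
/-- shift down by `β` inside `[lo,hi)` -/
def dn (lo hi β : ℕ) : Layer := ⟨2, lo, hi, β⟩
/-- the inverse layer -/
def inv (l : Layer) : Layer :=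
  if l.t = 0 then ⟨0, (if l.a % 2 = 0 then l.a + 1 else l.a - 1), l.b, l.c⟩
  else if l.t = 1 then ⟨2, l.a, l.b, l.c⟩
  else if l.t = 2 then ⟨1, l.a, l.b, l.c⟩ else l
end Layer

/-- The inverse circuit. -/
def cinv (l : List Layer) : List Layer := (l.map Layer.inv).reverse

/-- Parameters of the pattern. `N` packets per group, `M` addresses of the circuits, `Hs`
superbands per strip, `QQ` superbands per block, the circuits of the alive gate and of the two
numbers. -/
@[ext] structure Par where
  N : ℕ
  M : ℕ
  Hs : ℕ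
  QQ : ℕ
  cE : List Layer
  cX : List Layer
  cY : List Layer

namespace Par

/-- channels per block -/
def Q (P : Par) : ℕ := 2 * P.QQ
/-- side of a block -/
def K (P : Par) : ℕ := 6 * P.QQ
/-- first superband of the strips -/
def H0 (P : Par) : ℕ := 2 * P.N + 20
/-- first superband of strip `t` -/
def base (P : Par) (t : ℕ) : ℕ := P.H0 + t * P.Hs
/-- channel leaving to the right at superband `base t + k` -/
def ex (P : Par) (t k : ℕ) : ℕ := 2 * P.Q - 1 - 2 * (P.base t + k)
/-- channel entering from the left at superband `base t + k` -/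
def en (P : Par) (t k : ℕ) : ℕ := P.Q - 1 - 2 * (P.base t + k)

/-- the circuit of gate number `d` -/
def circ (P : Par) (d : ℕ) : List Layer :=
  if d = 0 then P.cX else if d = 1 then cinv P.cX else if d = 2 then P.cY else cinv P.cY

end Par

/-- Move a wire from channel `c` to channel `c'` (alive gate, then run). -/
def move (c c' : ℕ) : List Ev := [Ev.A c, Ev.R (c + 14) c']

/-- Channel of address `k` at time `t`. -/
def pos (M P0 t k : ℕ) : ℕ := P0 + t * (20 * M + 30) + k * 20

/-- Events of one layer. -/
def layerEvs (M P0 t : ℕ) (l : Layer) : List Ev :=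
  if l.t = 0 then
    move (pos M P0 t l.b) (pos M P0 t (l.b + 1) - 2) ++ [Ev.G l.a (pos M P0 t (l.b + 1) - 2)] ++
      (List.range M).reverse.flatMap fun j =>
        move (if j = l.b then pos M P0 t (l.b + 1) + 12
          else if j = l.b + 1 then pos M P0 t (l.b + 1) + 14 else pos M P0 t j)
          (pos M P0 (t + 1) j)
  else if l.t = 1 then
    ((List.range M).reverse.flatMap fun j =>
      if l.a ≤ j ∧ j < l.b then
        (if j + l.c < l.b then move (pos M P0 t j) (pos M P0 (t + 1) (j + l.c))
          else [Ev.X (pos M P0 t j)])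
      else move (pos M P0 t j) (pos M P0 (t + 1) j)) ++
    (List.range (min l.c (l.b - l.a))).map fun x => Ev.I (pos M P0 (t + 1) (l.a + x))
  else
    ((List.range M).reverse.flatMap fun j =>
      if l.a ≤ j ∧ j < l.b then
        (if l.a + l.c ≤ j then move (pos M P0 t j) (pos M P0 (t + 1) (j - l.c))
          else [Ev.X (pos M P0 t j)])
      else move (pos M P0 t j) (pos M P0 (t + 1) j)) ++
    (List.range (min l.c (l.b - l.a))).map fun x => Ev.I (pos M P0 (t + 1) (l.b - 1 - x))

/-- Events bringing the `S` input wires to the addresses `0..S-1`, and creating the others. -/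
def initEvs (M P0 S : ℕ) (src : ℕ → ℕ) : List Ev :=
  ((List.range S).reverse.flatMap fun a => move (src a) (pos M P0 0 a)) ++
    (List.range (M - S)).map fun x => Ev.I (pos M P0 0 (S + x))

/-- Events bringing the wires `0..S-1` to their exit channels and removing the others. -/
def finalEvs (M P0 S t : ℕ) (dst : ℕ → ℕ) : List Ev :=
  (List.range M).reverse.flatMap fun a =>
    if a < S then move (pos M P0 t a) (dst a) else [Ev.X (pos M P0 t a)]

/-- All events of a circuit. -/
def circEvs (M P0 S : ℕ) (src dst : ℕ → ℕ) (L : List Layer) : List Ev :=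
  initEvs M P0 S src ++
    ((List.range L.length).flatMap fun t => layerEvs M P0 t (L.getD t default)) ++
    finalEvs M P0 S L.length dst

/-- wires enter from the left in the first `P.N` superbands of strip `t` -/
def entStrip (b : Bool) (t : ℕ) : Bool :=
  if b then decide (t = 42 ∨ t = 39 ∨ t = 36 ∨ t = 27 ∨ t = 18 ∨ t = 9 ∨ t = 30 ∨ t = 21 ∨
    t = 12 ∨ t = 3)
  else decide (t ≤ 84 ∧ t ≠ 41 ∧ t ≠ 42)

namespace Par

variable (P : Par)

/-- channels of the inputs of the pair circuit `d` -/
def srcP (d a : ℕ) : ℕ :=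
  if a < P.N then P.en (36 - 9 * d) (P.N - 1 - a) else P.en (30 - 9 * d) (2 * P.N - 1 - a)
/-- exit channels of the pair circuit `d` -/
def dstP (d a : ℕ) : ℕ :=
  if a < P.N then P.ex (79 - 9 * d) (P.N - 1 - a) else P.ex (73 - 9 * d) (2 * P.N - 1 - a)
/-- channels of the inputs of the alive circuit -/
def srcE (a : ℕ) : ℕ := P.en 39 (P.N - 1 - a)
/-- exit channels of the alive circuit -/
def dstE (a : ℕ) : ℕ := P.ex 82 (P.N - 1 - a)

/-- events of the pair circuit `d` -/
def pairEvs (d : ℕ) : List Ev :=
  circEvs P.M (P.en (30 - 9 * d) 0 + 30) (2 * P.N) (P.srcP d) (P.dstP d) (P.circ d)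
/-- events of the alive circuit -/
def aliveEvs : List Ev := circEvs P.M (P.en 39 0 + 30) P.N P.srcE P.dstE P.cE

/-- events in the top part -/
def top (b : Bool) : List Ev :=
  if b then move (P.Q + 13) (P.ex 43 0)
  else (List.range P.N).flatMap fun k => move (P.ex 42 k) (P.ex 0 k)

/-- events in strip `t` -/
def strip (b : Bool) (t : ℕ) : List Ev :=
  if b then
    (if t = 39 then P.aliveEvs else if t = 36 then P.pairEvs 0 else if t = 27 then P.pairEvs 1
      else if t = 18 then P.pairEvs 2 else if t = 9 then P.pairEvs 3 else [])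
  else
    (if t ≤ 84 ∧ t ≠ 41 ∧ t ≠ 42 then
      (List.range P.N).flatMap fun k =>
        move (P.en t k) (if t = 84 then P.en 42 k else P.ex (t + 1) k)
    else [])

/-- the event of superband `A` -/
def ev (b : Bool) (A : ℕ) : Ev :=
  if A < 4 then Ev.non
  else if A < P.H0 then (P.top b).getD (A - 4) Ev.non
  else if (A - P.H0) % P.Hs < P.N + 4 then Ev.non
  else (P.strip b ((A - P.H0) / P.Hs)).getD ((A - P.H0) % P.Hs - (P.N + 4)) Ev.non

/-- a wire enters from the left at superband `A` -/
def entry (b : Bool) (A : ℕ) : Bool :=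
  decide (P.H0 ≤ A) && decide ((A - P.H0) % P.Hs < P.N) && entStrip b ((A - P.H0) / P.Hs)

/-- the first row of superband `A` is a zero row -/
def zrow (b : Bool) (A : ℕ) : Bool :=
  !b && decide (P.H0 ≤ A) && decide ((A - P.H0) % P.Hs < P.N) && decide ((A - P.H0) / P.Hs = 42)

/-- channel leaving to the right at superband `A` -/
def exitc (A : ℕ) : ℕ := 2 * P.Q - 1 - 2 * A
/-- channel entering from the left at superband `A` -/
def entc (A : ℕ) : ℕ := P.Q - 1 - 2 * A

end Par

/-- `c` is a wire used up by the event `e` -/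
def isSrc (e : Ev) (c : ℕ) : Bool :=
  if e.t = 1 then decide (c = e.x)
  else if e.t = 2 then decide (c = e.x ∨ c = e.x + 2)
  else if e.t = 3 then decide (c = e.x)
  else if e.t = 5 then decide (c = e.x) else false

/-- `c` is a wire produced by the event `e` -/
def isDst (e : Ev) (c : ℕ) : Bool :=
  if e.t = 1 then decide (c = e.y)
  else if e.t = 2 then decide (c = e.x + 14 ∨ c = e.x + 16)
  else if e.t = 3 then decide (c = e.x + 14)
  else if e.t = 4 then decide (c = e.x) else false

/-- the wall of the wire `c` is interrupted before the gate `e` -/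
def isCut (e : Ev) (c : ℕ) : Bool :=
  decide (e.t = 2) && (if e.y % 2 = 0 then decide (c = e.x + 2) else decide (c = e.x))

/-- the wire `c` produced by `e` starts without wall -/
def isNew (e : Ev) (c : ℕ) : Bool :=
  if e.t = 4 then decide (c = e.x)
  else if e.t = 2 then (if e.y % 2 = 0 then decide (c = e.x + 14) else decide (c = e.x + 16))
  else false

/-- number of the trigger channel of the event, relative to `e.x` -/
def trig (e : Ev) : ℕ := if e.t = 2 then e.x + 12 - 3 * e.y else e.x + 13

/-- last channel of the zeros of the event -/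
def last (e : Ev) : ℕ := if e.t = 2 then e.x + 16 else if e.t = 3 then e.x + 14 else e.y

/-- Symbol of the event row at channel `c`: `0` default, `1` start of a run, `2` zeros, `3` end of
a run or trigger. -/
def sym (e : Ev) (c : ℕ) : ℕ :=
  if e.t = 1 then
    (if c = e.x then 1 else if e.x < c ∧ c < e.y then 2 else if c = e.y then 3 else 0)
  else if e.t = 2 ∨ e.t = 3 then
    (if e.x ≤ c ∧ c ≤ last e then (if c = trig e then 3 else 2) else 0)
  else 0

namespace Par

variable (P : Par)

/-- wires at the top of superband 0 -/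
def W0 (b : Bool) (c : ℕ) : Bool :=
  (List.range P.N).any (fun k => decide (c = P.ex 42 k)) || (b && decide (c = P.Q + 13))

/-- wires at the top of superband `A` -/
def W (b : Bool) : ℕ → ℕ → Bool
  | 0, c => P.W0 b c
  | A + 1, c =>
    ((W b A c && !decide (c = P.exitc A) && !isSrc (P.ev b A) c) || isDst (P.ev b A) c) ||
      (P.entry b (A + 1) && decide (c = P.entc (A + 1)))

/-- wires after the event of superband `A` -/
def W' (b : Bool) (A c : ℕ) : Bool :=
  (P.W b A c && !decide (c = P.exitc A) && !isSrc (P.ev b A) c) || isDst (P.ev b A) c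

/-- closed walls in rows 0 and 2 -/
def cl (b : Bool) (A c : ℕ) : Bool := P.W b A c && !isCut (P.ev b A) c
/-- closed walls in rows 4 and 5 -/
def cl4 (b : Bool) (A c : ℕ) : Bool := P.W' b A c && !isNew (P.ev b A) c
/-- closed walls in row 3 -/
def cl3 (b : Bool) (A c : ℕ) : Bool :=
  P.cl4 b A c || (decide ((P.ev b A).t = 1) && decide (c = (P.ev b A).x))

/-- the bit of the pattern `h(b)` in row `i`, in the coordinate `x = j + K - i - 1` -/
def bx (b : Bool) (i x : ℕ) : Bool :=
  if i % 6 = 0 then
    (if P.zrow b (i / 6) then false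
    else if b && decide (i = 0 ∧ P.K ≤ x ∧ x ≤ P.K + 41) then false
    else if x % 3 = 0 then !P.cl b (i / 6) (x / 3) else true)
  else if i % 6 = 1 then !decide (x % 3 = 0)
  else if i % 6 = 2 then
    (if sym (P.ev b (i / 6)) (x / 3) = 0 then
      (if x % 3 = 0 then !P.cl b (i / 6) (x / 3) else true)
    else if sym (P.ev b (i / 6)) (x / 3) = 1 then
      (if x % 3 = 0 then !P.cl b (i / 6) (x / 3) else decide (x % 3 = 1))
    else if sym (P.ev b (i / 6)) (x / 3) = 2 then false
    else decide (x % 3 = 2))
  else if i % 6 = 3 then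
    (if x % 3 = 0 then !P.cl3 b (i / 6) (x / 3) else true)
  else if i % 6 = 4 then
    (if x % 3 = 0 then !P.cl4 b (i / 6) (x / 3)
      else if x % 3 = 1 then P.W' b (i / 6) (x / 3) || decide (x + i + 1 = P.K)
      else true)
  else
    (if x % 3 = 0 then !P.cl4 b (i / 6) (x / 3) else true)

/-- the bit of the pattern `h(b)` in the cell `(i,j)` -/
def bit (b : Bool) (i j : ℕ) : Bool := P.bx b i (j + P.K - i - 1)

/-- the two blocks as tables -/
def table (b : Bool) : List (List Bool) :=
  (List.range P.K).map fun i => (List.range P.K).map fun j => P.bit b i j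

/-- the input of the decision problem -/
def inp : Inp := (P.table false, P.table true, true)

/-- the infinite array -/
def arr (i j : ℕ) : Bool := hOmega P.inp i j

end Par

end Pool.Agent.MP_fadef1_lc
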